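import Pool.Agent.W886.VL.All

/-!
# Solovay's question on complete second-order theories under `V = L`

Under `V = L` every complete recursively axiomatized second-order theory in a finite vocabulary
is categorical.

The definitions (`VeqL`, `RecAx`; `Complete`, `Categorical`, full second-order satisfaction) are in
`Pool.Agent.W886.VL.Defs` and `Pool.Agent.SOCat.Defs`.

Idea of the proof.  A complete theory with a finite model is categorical, so let all the models be
infinite, and let `T'` be an r.e. set of axioms.

1. All the models have the same cardinality.  Let `M` be a model of the least cardinality `κ` and
   `N` a model of larger cardinality.  Then `H(κ⁺)` is an element of `H(|N|⁺)`, so the statement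
   'there are a transitive set `X` and a structure `u` in `X` such that all the finitary relations
   on the domain of `u` are in `X` and `X` thinks that `u` is a model of `T'`' holds in `H(|N|⁺)`.
   It is expressed by one second-order sentence (r.e. sets of numbers are definable), hence it
   holds in `H(κ⁺)`, which contradicts the choice of `κ`.

2. Let `H = H(κ⁺)`, which is a level `L_{κ⁺}` of the constructible hierarchy.  For a model `S` let
   `F(S)` be the lexicographically least finite sequence of elements of `H`, decreasing in the
   canonical well-order of `L`, from which a code of `S` is first-order definable over `H`.  By
   completeness the length of `F(S)` and the defining formula do not depend on `S`.  Let `S₀` be a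
   model with the least `F(S₀)`, and suppose that `F(S₀) = G⌢e₀⌢r₀` and `F(S) = G⌢e⌢r` with
   `e₀ < e`.  By the minimality of `F(S)` and condensation (`Key.lean`) there are a transitive set
   `X` and a sequence `G'`, both definable over `H` from `F(S)`, such that
   `(X, G', x)_{x < e} ≡ (H, G, x)_{x < e}`.  So the statement 'there is `r' < e` such that `X`
   thinks that the structure defined from `G'⌢r'` is a model of `T'`' holds for `S`, with the
   witness `r' = e₀⌢r₀`.  It is expressed by one sentence, so it holds for `S₀`, and (as the
   equivalence also transfers to `S₀`) there is a model `S₁` of `T` with a code definable from
   `G⌢r'` for some `r' < e₀`, which contradicts the choice of `S₀`.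
   Hence `F(S) = F(S₀)` for all models `S`, and `S` and `S₀` are isomorphic.
-/

namespace Pool.Agent.Results.MP_cba9f6_lc.SolovayVL

open SOCat Pool.Agent.W886.VL

/-- **Theorem.** Assume `V = L`.  Every complete, recursively axiomatized second-order theory `T`
in a finite vocabulary is categorical. -/
theorem result (hV : VeqL) {τ : Voc} (T : Set (SO τ)) (hT : Complete.{0} T) (hR : RecAx T) :
    Categorical.{0} T :=
  solovay hV T hT hR

end Pool.Agent.Results.MP_cba9f6_lc.SolovayVL
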